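import Pool.Agent.Helper47.TR.T1

set_option autoImplicit false

/-!
# AP-reductions between the points of the region `x ≥ 1`, `-1 < y < 1` (library copy of the former hand-in HyperbolaOrder)
-/

namespace Pool.Agent.HyOrd.Main

open Pool.Agent.Helper47.TR

/-- passage from the hyperbola of `(x, y)` to the `k`-th next one, with the same `y` -/
theorem shift {x y : ℚ} (hx : 1 ≤ x) (hy : |y| < 1) (k : ℕ) :
    APRed (tutte (x + k / (1 - y)) y) (tutte x y) := by
  have h1y : 0 < 1 - y := by have := (abs_lt.mp hy).2; linarith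
  induction k with
  | zero =>
    rw [Nat.cast_zero, zero_div, add_zero]
    exact APRed.refl _
  | succ k ih =>
    have h1 : (1 : ℚ) ≤ x + k / (1 - y) := by
      have : (0 : ℚ) ≤ k / (1 - y) := div_nonneg (Nat.cast_nonneg k) h1y.le
      linarith
    refine APRed.trans (apred_step h1 hy ?_) ih
    push_cast
    field_simp
    ring

/-- Let `x ≥ 1`, `|y| < 1`, `|y'| < 1`, `y' ≥ min(0, y)`, and let
`(x' - 1)(1 - y') - (x - 1)(1 - y)` be a natural number. Then approximating the Tutte polynomial
at `(x', y')` reduces to approximating it at `(x, y)`. -/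
theorem result (x y x' y' : ℚ) (k : ℕ) (hx : 1 ≤ x) (hy : |y| < 1) (hy' : |y'| < 1)
    (hxy : (x' - 1) * (1 - y') = (x - 1) * (1 - y) + k) (hyy : min 0 y ≤ y') :
    APRed (tutte x' y') (tutte x y) := by
  have h1y : 0 < 1 - y := by have := (abs_lt.mp hy).2; linarith
  have h1y' : 0 < 1 - y' := by have := (abs_lt.mp hy').2; linarith
  -- the point of the hyperbola of `(x, y)` with second coordinate `y'`
  have hx0 : 0 ≤ (x - 1) * (1 - y) / (1 - y') :=
    div_nonneg (mul_nonneg (by linarith) h1y.le) h1y'.le
  have h1 : APRed (tutte (1 + (x - 1) * (1 - y) / (1 - y')) y') (tutte x y) := by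
    refine apred_hyp hx hy hy' (min_le_iff.mp hyy) ?_
    rw [add_sub_cancel_left, div_mul_cancel₀ _ h1y'.ne']
  have h2 : APRed (tutte (1 + (x - 1) * (1 - y) / (1 - y') + k / (1 - y')) y')
      (tutte (1 + (x - 1) * (1 - y) / (1 - y')) y') := shift (by linarith) hy' k
  have h3 : 1 + (x - 1) * (1 - y) / (1 - y') + k / (1 - y') = x' := by
    field_simp
    linear_combination -hxy
  rw [h3] at h2
  exact h2.trans h1

end Pool.Agent.HyOrd.Main
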